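import Pool.Agent.MVO.StmtsC
import Pool.Agent.Helper92_MVO.SWA

/-!
# Squad MVO (MP_23468a_al), row SWC: the exchange in gathered words, class c1
-/

set_option autoImplicit false

namespace Pool.Agent.MVO.H45

open Pool.Agent.Helper14_MV Pool.Agent.Helper2_MV Pool.Agent.Helper92_MVO

theorem swc (hexc : ExcStmt) : SwcStmt := by
  intro β hC ω hle k X n D hD i hik A B x y hDi hex
  by_cases hcase : ¬ FR k (fun j => n j x) (fun j => n j y) i ∧
      ¬ ZR k (fun j => n j x) (fun j => n j y) i
  · exact hle _ _ (hexc β hC k X n D hD i hik A B x y hDi hcase.1 hcase.2)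
  have hone : ∀ j ≤ k, j ≠ i → n j x = 0 ∨ n j y = 0 := by
    by_cases hF : FR k (fun j => n j x) (fun j => n j y) i
    · exact hF.2.1
    · have hZ : ZR k (fun j => n j x) (fun j => n j y) i := by
        by_contra hZ
        exact hcase ⟨hF, hZ⟩
      exact hZ.2.1
  have hxX : x ∈ X := (hD.perm i).subset (by rw [hDi]; simp)
  have hyX : y ∈ X := (hD.perm i).subset (by rw [hDi]; simp)
  have hsplit : ∀ j, ∃ Z : List ℕ × List ℕ,
      D j = Z.1 ++ (if n j x = 0 then y else x) :: Z.2 := by
    intro j
    have h1 : (if n j x = 0 then y else x) ∈ D j := by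
      refine (hD.perm j).mem_iff.mpr ?_
      split_ifs
      · exact hyX
      · exact hxX
    obtain ⟨s, t, h2⟩ := List.append_of_mem h1
    exact ⟨(s, t), h2⟩
  choose Z hZ using hsplit
  obtain ⟨h, hh⟩ : ∃ h : ℕ → List ℕ, h = fun c => if c = 0 then [x] else
      if c = 1 then [y] else [c] := ⟨_, rfl⟩
  have h0' : h 0 = [x] := by rw [hh]; rfl
  have h1' : h 1 = [y] := by rw [hh]; rfl
  have hfalse : ∀ p q : ℕ, (bl p q false).flatMap h
      = List.replicate p x ++ List.replicate q y := by
    intro p q
    simp only [bl, Bool.false_eq_true, if_false]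
    rw [List.flatMap_append, rep_flatMap h 0 x h0', rep_flatMap h 1 y h1']
  have htrue : ∀ p q : ℕ, (bl p q true).flatMap h
      = List.replicate q y ++ List.replicate p x := by
    intro p q
    simp only [bl, if_true]
    rw [List.flatMap_append, rep_flatMap h 0 x h0', rep_flatMap h 1 y h1']
  have s2 := rr_ins ω
    (fun j => if j = i then gb (n i) A else gb (n j) (Z j).1)
    (fun j => if j = i then gb (n i) B else gb (n j) (Z j).2) h
    (blkOk_w2 k (fun j => n j x) (fun j => n j y) (fun _ => false))
    (blkOk_w2 k (fun j => n j x) (fun j => n j y) (flp (fun _ => false) i))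
    (hex (fun _ => false))
  have hblk : ∀ j ≤ k, j ≠ i →
      gb (n j) (Z j).1 ++ (List.replicate (n j x) x ++ List.replicate (n j y) y) ++
        gb (n j) (Z j).2 = gb (n j) (D j) := by
    intro j hj hji
    by_cases h0 : n j x = 0
    · have h2 := hZ j
      rw [if_pos h0] at h2
      rw [h2, gb_append, gb_cons, h0]
      simp [List.append_assoc]
    · have h2 := hZ j
      rw [if_neg h0] at h2
      have h3 : n j y = 0 := (hone j hj hji).resolve_left h0
      rw [h2, gb_append, gb_cons, h3]
      simp [List.append_assoc]
  have e2 : asm k (fun j => (fun j => if j = i then gb (n i) A else gb (n j) (Z j).1) j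
      ++ (bl (n j x) (n j y) false).flatMap h
      ++ (fun j => if j = i then gb (n i) B else gb (n j) (Z j).2) j) = gw k n D := by
    refine asm_congr fun j hj => ?_
    rw [hfalse]
    by_cases hji : j = i
    · simp only [if_pos hji]
      rw [hji, hDi, gb_append, gb_cons, gb_cons]
      simp [List.append_assoc]
    · simp only [if_neg hji]
      exact hblk j hj hji
  have e4 : asm k (fun j => (fun j => if j = i then gb (n i) A else gb (n j) (Z j).1) j
      ++ (bl (n j x) (n j y) (flp (fun _ => false) i j)).flatMap h
      ++ (fun j => if j = i then gb (n i) B else gb (n j) (Z j).2) j)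
      = gw k n (Function.update D i (A ++ y :: x :: B)) := by
    refine asm_congr fun j hj => ?_
    by_cases hji : j = i
    · have e5 : flp (fun _ => false) i j = true := by
        unfold flp
        rw [if_pos hji]
        rfl
      rw [e5, htrue]
      simp only [if_pos hji]
      rw [hji, Function.update_self, gb_append, gb_cons, gb_cons]
      simp [List.append_assoc]
    · have e5 : flp (fun _ => false) i j = false := by
        unfold flp
        rw [if_neg hji]
      rw [e5, hfalse]
      simp only [if_neg hji]
      rw [Function.update_of_ne hji]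
      exact hblk j hj hji
  rw [e2, e4] at s2
  exact s2

end Pool.Agent.MVO.H45
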